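import Pool.Agent.Run7.h414.DP.Eng
import Pool.Agent.R459.Eq18

/-!
# Lang–Trotter counts for the fibres of several elliptic surfaces at random integers with determinantal digits

Let `E_{i, n} : y² = x³ + f_i(n) x + g_i(n)`, `i < m`, be the fibres at `n` of any `m` elliptic surfaces with polynomials
`f_i, g_i` with integer coefficients, and `n = c + κ v` with a random integer `v`.
The digits of the random integer `v` are given by a determinantal random set `S` of positions (a determinantal point process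
with an arbitrary Hermitian kernel): the digit number `i` is `y i` if `i ∈ S` and `x i ≠ y i` otherwise. Examples (their
existence is not used and not formalised): the edges of a uniform spanning tree of a graph with `k` edges; stationary
determinantal processes with any symbol which is not almost everywhere `0` or almost everywhere `1` (for example the discrete
sine process with any density); independent digits; and all the events for such processes whose probability is at least
`1 / k ^ t`, for example a prescribed number of elements of `S`.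

Definitions used (in `Pool.Agent.Run7.h414.DP.Law`, `Pool.Agent.Run7.h414.DP.Fam` and `Pool.Agent.Run7.h414.DP.Alm`):
`DetLaw`, `GoodPos`, `DetDigits`, `AlmostD`.

Method: the characteristic function is `det (1 + D A)`; the inequality `|det N|² ≤ exp (tr N* N - k)` for
`N = 1 + B D B*`, `A = B* B`, bounds it by `exp (- E)` with an energy `E` which is at least a constant times the number of
the places where the frequency is far from the rational numbers with small denominators. The passage to sums over primes of functions of residues is from the starting files (`Pool.Agent.R459.Eq`,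
`Pool.Agent.N794.CG`), and in `Pool.Agent.W263.BSD`: `pointCount a n p` is the number of the solutions of
`y² = x³ + a x + n` modulo `p`, `GoodPrime a n p`: `p` is a prime which does not divide `2 (4 a³ + 27 n²)`.
-/

set_option autoImplicit false

namespace Pool.Agent.Results.MP_d74fca_nt.DeterminantalSurfaces

open Finset Pool.Agent.R459.Eq Pool.Agent.N794.CG
open Pool.Agent.W263.BSD (GoodPrime pointCount)
open Pool.Agent.Run7.h414.DP (DetDigits AlmostD almostD_of two_det fine_det det_nonneg)

/-- `p` is a prime of good reduction of all the curves `y² = x³ + f_i(n) x + g_i(n)`, and their traces of Frobenius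
`a_p = p - N_p` are `r_i`. -/
def Traces {m : ℕ} (f g : Fin m → Polynomial ℤ) (r : Fin m → ℤ) (p : ℕ) (n : ℤ) : Prop :=
  ∀ i, GoodPrime ((f i).eval n) ((g i).eval n) p ∧ (p : ℤ) - pointCount ((f i).eval n) ((g i).eval n) p = r i

open Classical in
/-- The number of the primes `p ≤ x` in `T` at which all the `y² = x³ + f_i(n) x + g_i(n)` have good reduction and the traces
`r_i`. -/
noncomputable def count {m : ℕ} (f g : Fin m → Polynomial ℤ) (T : Set ℕ) (r : Fin m → ℤ) (n : ℤ) (x : ℕ) : ℕ :=
  ((range (x + 1)).filter (fun p => p.Prime ∧ p ∈ T ∧ Traces f g r p n)).card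

open Classical in
/-- The sum over the primes `p ≤ x` in `T` of the proportion of the residues `t` modulo `p` for which all the
`y² = x³ + f_i(t) x + g_i(t)` have good reduction at `p` and the traces `r_i`. -/
noncomputable def model {m : ℕ} (f g : Fin m → Polynomial ℤ) (T : Set ℕ) (r : Fin m → ℤ) (x : ℕ) : ℝ :=
  ∑ p ∈ (range (x + 1)).filter (fun p => p.Prime ∧ p ∈ T), (((range p).filter (fun t : ℕ => Traces f g r p t)).card : ℝ) / p

section codes

/-- a code of an integer -/
def ec (z : ℤ) : ℕ := 2 * z.natAbs + if z < 0 then 1 else 0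

lemma ec_inj {z z' : ℤ} (h : ec z = ec z') : z = z' := by
  unfold ec at h
  split_ifs at h <;> omega

lemma ec_le (z : ℤ) : ec z ≤ 2 * z.natAbs + 1 := by
  unfold ec
  split_ifs <;> omega

/-- a code of a list -/
def encN : List ℕ → ℕ
  | [] => 0
  | a :: l => Nat.pair a (encN l)

lemma encN_inj : ∀ (l l' : List ℕ), l.length = l'.length → encN l = encN l' → l = l' := by
  intro l
  induction l with
  | nil =>
    intro l' h _
    cases l' with
    | nil => rfl
    | cons a l' => simp at h
  | cons a l ih =>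
    intro l' h h'
    cases l' with
    | nil => simp at h
    | cons a' l' =>
      have h1 := Nat.pair_eq_pair.1 h'
      rw [h1.1, ih l' (by simpa using h) h1.2]

lemma encN_le (R : ℕ) : ∀ l : List ℕ, (∀ a ∈ l, a ≤ R) → encN l + 1 ≤ (R + 1) ^ (2 ^ l.length) := by
  intro l
  induction l with
  | nil =>
    intro _
    simp [encN]
  | cons a l ih =>
    intro h
    have h1 := ih fun a' ha' => h a' (List.mem_cons_of_mem _ ha')
    have h2 := h a List.mem_cons_self
    have h3 := Nat.pair_lt_max_add_one_sq a (encN l)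
    have h4 : max a (encN l) + 1 ≤ (R + 1) ^ (2 ^ l.length) := by
      have h5 : R + 1 ≤ (R + 1) ^ (2 ^ l.length) := Nat.le_self_pow (by positivity) _
      rcases le_total a (encN l) with h6 | h6
      · rw [max_eq_right h6]
        exact h1
      · rw [max_eq_left h6]
        omega
    have h7 := Nat.pow_le_pow_left h4 2
    rw [← pow_mul, ← pow_succ] at h7
    show Nat.pair a (encN l) + 1 ≤ _
    rw [List.length_cons]
    omega

/-- the code of a vector of integers and an index -/
def code {m : ℕ} (j : ℕ) (r : Fin m → ℤ) : ℕ := encN (j :: List.ofFn (fun i => ec (r i)))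

lemma code_inj {m : ℕ} {j j' : ℕ} {r r' : Fin m → ℤ} (h : code j r = code j' r') : j = j' ∧ r = r' := by
  unfold code at h
  have h1 := encN_inj _ _ (by simp) h
  rw [List.cons.injEq] at h1
  refine ⟨h1.1, ?_⟩
  have h2 := List.ofFn_injective h1.2
  funext i
  exact ec_inj (congrFun h2 i)

lemma code_le {m : ℕ} {j R : ℕ} {r : Fin m → ℤ} (hj : j ≤ R) (hr : ∀ i, (r i).natAbs ≤ R) :
    code j r + 1 ≤ (2 * R + 2) ^ (2 ^ (m + 1)) := by
  unfold code
  have h := encN_le (2 * R + 1) (j :: List.ofFn (fun i => ec (r i))) (by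
    intro a ha
    rw [List.mem_cons] at ha
    rcases ha with rfl | ha
    · omega
    · rw [List.mem_ofFn] at ha
      obtain ⟨i, rfl⟩ := ha
      have h1 := ec_le (r i)
      have h2 := hr i
      omega)
  rw [List.length_cons, List.length_ofFn] at h
  exact h

end codes

lemma traces_per {m : ℕ} (f g : Fin m → Polynomial ℤ) (r : Fin m → ℤ) (p : ℕ) {n n' : ℤ} (h : (p : ℤ) ∣ n - n') :
    Traces f g r p n ↔ Traces f g r p n' := by
  have key : ∀ F : Polynomial ℤ, ((F.eval n : ℤ) : ZMod p) = ((F.eval n' : ℤ) : ZMod p) := by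
    intro F
    rw [← sub_eq_zero, ← Int.cast_sub, ZMod.intCast_zmod_eq_zero_iff_dvd]
    exact h.trans (Polynomial.sub_dvd_eval_sub n n' F)
  unfold Traces
  apply forall_congr'
  intro i
  have h1 : GoodPrime ((f i).eval n) ((g i).eval n) p ↔ GoodPrime ((f i).eval n') ((g i).eval n') p := by
    unfold GoodPrime
    rw [← ZMod.intCast_zmod_eq_zero_iff_dvd, ← ZMod.intCast_zmod_eq_zero_iff_dvd]
    push_cast
    rw [key (f i), key (g i)]
  have h2 : pointCount ((f i).eval n) ((g i).eval n) p = pointCount ((f i).eval n') ((g i).eval n') p := by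
    unfold pointCount
    rw [key (f i), key (g i)]
  rw [h1, h2]

lemma filter_pri (x : ℕ) (Q : ℕ → Prop) [DecidablePred (fun p => p.Prime ∧ Q p)] [DecidablePred Q] :
    (range (x + 1)).filter (fun p => p.Prime ∧ Q p) = (pri x).filter Q := by
  ext p
  simp only [mem_filter, mem_range, mem_pri]
  constructor
  · rintro ⟨h1, h2, h3⟩
    exact ⟨⟨by omega, h2⟩, h3⟩
  · rintro ⟨⟨h1, h2⟩, h3⟩
    exact ⟨by omega, h2, h3⟩

/-- **Lang–Trotter counts for the fibres of several elliptic surfaces at random integers with determinantal digits.** Let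
`b ≥ 2`, `L`, `η > 0` and `0 < δ ≤ 1 / 2`. There is `W` such that for all `κ ≠ 0` and `m`, all sufficiently large `X` and all
`t₀`, `k` and `c` the following holds for all `w` which are dominated, up to the factor `k ^ t₀`, by the distribution of an
integer with `k` determinantal digits (`DetDigits b L η t₀ k w`). Let `f_i`, `g_i` (`i < m`) be any
polynomials with integer coefficients and let `T_0, T_1, ...` be any pairwise disjoint sets of primes.

Up to a `w`-weight of at most `2 k ^ t₀ X ^ (- δ / 2)` of the `v < b ^ k`, the integer `n = c + κ v` has for ALL `x ≥ X` with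
`x ^ W ≤ b ^ k`, ALL `j ≤ x ^ θ` and ALL integers `|r_i| ≤ x ^ θ`, `θ = δ / 2 ^ (m + 3)`: with `M` the sum over the primes `p ≤ x` in
`T_j` of the proportion of the residues `t` modulo `p` such that the curves `y² = x³ + f_i(t) x + g_i(t)` have good reduction
and the traces `r_i` at `p`, and `M'` the same sum over `p ≤ 2 x`, the number of the primes `p ≤ x` in `T_j` at which the
curves `y² = x³ + f_i(n) x + g_i(n)` have good reduction and the traces `r_i` differs from `M` by at most
`(max 1 M') ^ (1 / 2) x ^ δ`. -/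
theorem result (b L : ℕ) (hb : 2 ≤ b) (η : ℝ) (hη : 0 < η) (δ : ℝ) (hδ : 0 < δ) (hδ1 : δ ≤ 1 / 2) : ∃ W : ℕ, 1 ≤ W ∧
    ∀ κ : ℤ, κ ≠ 0 → ∀ m : ℕ, ∃ X₀ : ℕ, ∀ X : ℕ, X₀ ≤ X → ∀ (t₀ k : ℕ) (w : ℕ → ℝ), DetDigits b L η t₀ k w → ∀ c : ℤ, ∀ f g : Fin m → Polynomial ℤ,
    ∀ T : ℕ → Set ℕ, (∀ p j j', p ∈ T j → p ∈ T j' → j = j') →
    AlmostD b k w κ c ((k : ℝ) ^ t₀ * (2 * (X : ℝ) ^ (-(δ / 2)))) (fun n => ∀ x : ℕ, X ≤ x → x ^ W ≤ b ^ k →
      ∀ j : ℕ, (j : ℝ) ≤ (x : ℝ) ^ (δ / 2 ^ (m + 3)) → ∀ r : Fin m → ℤ, (∀ i, (|r i| : ℝ) ≤ (x : ℝ) ^ (δ / 2 ^ (m + 3))) →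
        |(count f g (T j) r n x : ℝ) - model f g (T j) r x| ≤ √(max 1 (model f g (T j) r (2 * x))) * (x : ℝ) ^ δ) := by
  classical
  obtain ⟨W, hW, H⟩ := fine_det δ hδ hδ1 b L hb η hη
  refine ⟨W, hW, fun κ hκ m => ?_⟩
  obtain ⟨X₀, J⟩ := H κ hκ
  obtain ⟨X₁, hX₁⟩ : ∃ X₁ : ℕ, ∀ x : ℕ, X₁ ≤ x → (4 : ℝ) ^ (2 ^ (m + 1)) ≤ (x : ℝ) ^ (δ / 4) := by
    have h1 := ((tendsto_rpow_atTop (show 0 < δ / 4 by positivity)).comp tendsto_natCast_atTop_atTop).eventually_ge_atTop
      ((4 : ℝ) ^ (2 ^ (m + 1)))
    obtain ⟨X₁, hX₁⟩ := Filter.eventually_atTop.1 h1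
    exact ⟨X₁, hX₁⟩
  refine ⟨X₀ + X₁ + 1, fun X hX t₀ k w hw c f g T hT => ?_⟩
  -- the indicator functions
  obtain ⟨G, hG⟩ : ∃ G : ℕ → ℕ → ℤ → ℝ, G = fun J p n =>
    if ∃ (j : ℕ) (r : Fin m → ℤ), code j r = J ∧ p ∈ T j ∧ Traces f g r p n then 1 else 0 := ⟨_, rfl⟩
  have hGval : ∀ (j : ℕ) (r : Fin m → ℤ) (p : ℕ) (n : ℤ), G (code j r) p n = if p ∈ T j ∧ Traces f g r p n then 1 else 0 := by
    intro j r p n
    rw [hG]
    simp only
    congr 1
    rw [eq_iff_iff]
    constructor
    · rintro ⟨j', r', h, h1, h2⟩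
      obtain ⟨rfl, rfl⟩ := code_inj h
      exact ⟨h1, h2⟩
    · rintro ⟨h1, h2⟩
      exact ⟨j, r, rfl, h1, h2⟩
  have h1 := J X (by omega) t₀ k w hw c G (by
    intro J
    constructor
    · intro p hp n n' h
      rw [hG]
      simp only
      congr 1
      rw [eq_iff_iff]
      apply exists_congr
      intro j
      apply exists_congr
      intro r
      rw [traces_per f g r p h]
    · intro p _ n
      rw [hG]
      simp only
      split_ifs <;> norm_num) (by
    intro p hp n M
    have h2 : ∑ J ∈ range M, (G J p n) ^ 2 ≤ 1 := by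
      have e : ∀ J, (G J p n) ^ 2 = if ∃ (j : ℕ) (r : Fin m → ℤ), code j r = J ∧ p ∈ T j ∧ Traces f g r p n then 1 else 0 := by
        intro J
        rw [hG]
        simp only
        split_ifs <;> norm_num
      simp only [e]
      rw [sum_boole]
      have h3 : ((range M).filter (fun J => ∃ (j : ℕ) (r : Fin m → ℤ), code j r = J ∧ p ∈ T j ∧ Traces f g r p n)).card ≤ 1 := by
        rw [card_le_one]
        intro J hJ J' hJ'
        obtain ⟨j, r, h4, h5, h6⟩ := (mem_filter.1 hJ).2
        obtain ⟨j', r', h4', h5', h6'⟩ := (mem_filter.1 hJ').2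
        have h7 := hT p j j' h5 h5'
        have h8 : r = r' := by
          funext i
          rw [← (h6 i).2, ← (h6' i).2]
        rw [← h4, ← h4', h7, h8]
      exact_mod_cast h3
    have h3 : (0 : ℝ) ≤ Nat.log 2 p := Nat.cast_nonneg _
    linarith)
  refine almostD_of h1 ?_
  intro n hn x hXx hxW j hj r hr
  have hx1 : 1 ≤ x := by omega
  have hxr : (1 : ℝ) ≤ x := by exact_mod_cast hx1
  obtain ⟨θ, hθ⟩ : ∃ θ : ℝ, θ = δ / 2 ^ (m + 3) := ⟨_, rfl⟩
  rw [← hθ] at hj hr
  have hθ0 : 0 < θ := by rw [hθ]; positivity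
  have hy1 : 1 ≤ (x : ℝ) ^ θ := Real.one_le_rpow hxr hθ0.le
  -- the size of the code
  have hcode : ((code j r : ℕ) : ℝ) ≤ (x : ℝ) ^ (δ / 2) := by
    obtain ⟨R, hR⟩ : ∃ R : ℕ, R = ⌊(x : ℝ) ^ θ⌋₊ := ⟨_, rfl⟩
    have hRle : (R : ℝ) ≤ (x : ℝ) ^ θ := by
      rw [hR]
      exact Nat.floor_le (by positivity)
    have h2 : j ≤ R := by
      rw [hR]
      exact Nat.le_floor hj
    have h3 : ∀ i, (r i).natAbs ≤ R := by
      intro i
      rw [hR]
      apply Nat.le_floor
      have h4 := hr i
      rw [Nat.cast_natAbs]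
      push_cast
      exact h4
    have h4 : ((code j r : ℕ) : ℝ) + 1 ≤ (2 * (R : ℝ) + 2) ^ (2 ^ (m + 1)) := by exact_mod_cast code_le h2 h3
    have h5 : (2 * (R : ℝ) + 2) ^ (2 ^ (m + 1)) ≤ (4 * (x : ℝ) ^ θ) ^ (2 ^ (m + 1)) := by
      apply pow_le_pow_left₀ (by positivity)
      linarith
    have h6 : ((x : ℝ) ^ θ) ^ (2 ^ (m + 1)) = (x : ℝ) ^ (δ / 4) := by
      rw [← Real.rpow_natCast, ← Real.rpow_mul (by linarith), hθ]
      congr 1
      push_cast
      rw [pow_add (2 : ℝ) m 3, pow_add (2 : ℝ) m 1]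
      field_simp
      norm_num
    rw [mul_pow, h6] at h5
    have h7 : (4 : ℝ) ^ (2 ^ (m + 1)) * (x : ℝ) ^ (δ / 4) ≤ (x : ℝ) ^ (δ / 4) * (x : ℝ) ^ (δ / 4) :=
      mul_le_mul_of_nonneg_right (hX₁ x (by omega)) (by positivity)
    have h8 : (x : ℝ) ^ (δ / 4) * (x : ℝ) ^ (δ / 4) = (x : ℝ) ^ (δ / 2) := by
      rw [← Real.rpow_add (by linarith)]
      congr 1
      ring
    linarith
  have h2 := (hn x hXx hxW).2 (code j r) hcode
  have hmean : ∀ p, mean p (G (code j r) p) = if p ∈ T j then (((range p).filter (fun t : ℕ => Traces f g r p t)).card : ℝ) / p else 0 := by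
    intro p
    unfold mean
    simp only [hGval]
    by_cases h : p ∈ T j
    · rw [if_pos h]
      simp only [h, true_and]
      rw [sum_boole]
    · rw [if_neg h]
      simp only [h, false_and, if_false]
      simp
  have hmodel : ∀ y : ℕ, ∑ p ∈ pri y, mean p (G (code j r) p) = model f g (T j) r y := by
    intro y
    unfold model
    rw [filter_pri y (fun p => p ∈ T j), sum_filter]
    exact sum_congr rfl fun p _ => hmean p
  have hVs : Vs (G (code j r)) (2 * x) ≤ model f g (T j) r (2 * x) := by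
    rw [← hmodel]
    unfold Vs
    apply sum_le_sum
    intro p _
    unfold mean
    apply le_of_eq
    congr 1
    apply sum_congr rfl
    intro t _
    show (G (code j r) p (t : ℤ)) ^ 2 = G (code j r) p (t : ℤ)
    rw [hGval]
    split_ifs <;> norm_num
  have hcount : ∑ p ∈ pri x, G (code j r) p n = (count f g (T j) r n x : ℝ) := by
    unfold count
    rw [filter_pri x (fun p => p ∈ T j ∧ Traces f g r p n)]
    simp only [hGval]
    rw [sum_boole]
  rw [sum_sub_distrib, hcount, hmodel] at h2
  refine h2.trans ?_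
  apply mul_le_mul_of_nonneg_right _ (by positivity)
  exact Real.sqrt_le_sqrt (max_le_max le_rfl hVs)

end Pool.Agent.Results.MP_d74fca_nt.DeterminantalSurfaces
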