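import Pool.Agent.Run7.h582.FM.Eg3

/-!
# Lang–Trotter counts for all the fibres of several elliptic surfaces near `lam n * x + c n`, for almost every `x` of all measures with Fourier decay

Let `E_{i, q} : y² = x³ + f_i(q) x + g_i(q)`, `i < m`, be the fibres at `q` of any `m` elliptic surfaces with polynomials
`f_i, g_i` with integer coefficients. Let `N n ≥ exp (n ^ η)`, and let `lam n`, `c n` be real numbers with
`N n / log ^ T (N n) ≤ lam n ≤ B N n` and `|c n| ≤ B N n`. The theorem is about the fibres at ALL the integers `q` at a distance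
of at most `log ^ V (N n)` from `lam n * x + c n`, for all large `n` and almost every real number `x` with respect to EVERY
finite Borel measure with bounded support whose Fourier transform is `O (|ξ| ^ (-δ'))` for some `δ' > 0`. Thus the exceptional
sets of `x` have Fourier dimension zero. For these `q` the number of the primes `p ≤ X` in a set `S j` of primes at which all the
`E_{i, q}` have good reduction and prescribed traces `r_i` is, for all `j`, `|r_i|` up to a power of `X`, equal to the sum over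
these `p` of the exact proportion of the residues `t` modulo `p` for which the fibres at `t` have these traces, with an error
of the size of the SQUARE ROOT of this sum. The sets `S j` are any pairwise disjoint sets of primes, for instance the residue
classes modulo a fixed integer, or thin sets.

Method: a measure with polynomial Fourier decay is replaced by finite families of real numbers with the same exponential
sums (`Pool.Agent.Run7.h582.FM`); the characteristic functions of the integer parts of the members decay at all frequencies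
with many binary digits far from those of an integer (with the theorem on integer parts of helper193, `Pool.Agent.N193.PS`);
from there the passage to sums over primes of functions of residues is from the starting files (`Pool.Agent.R459.Eq`, and
helper794's form of it, `Pool.Agent.N794.CG`), and then the lemma of Borel and Cantelli is used.

Definitions used: in `Pool.Agent.W263.BSD` (file `Pool/Agent/W263/BSD/Defs.lean`): `pointCount a n p` is the number of the
solutions of `y² = x³ + a x + n` modulo `p`, `GoodPrime a n p`: `p` is a prime which does not divide `2 (4 a³ + 27 n²)`.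
-/

set_option autoImplicit false
set_option maxHeartbeats 4000000

namespace Pool.Agent.Results.MP_d74fca_nt.FourierDecaySurfaces

open Finset Filter MeasureTheory Pool.Agent.R459.Eq
open Pool.Agent.W263.BSD (GoodPrime pointCount)

/-- `N n ≥ exp (n ^ η)`, `|c n| ≤ B N n` and `N n / log ^ T (N n) ≤ lam n ≤ B N n` for large `n`. -/
def Scales (η : ℝ) (B T : ℕ) (N : ℕ → ℕ) (lam c : ℕ → ℝ) : Prop :=
  ∀ᶠ n : ℕ in atTop, Real.exp ((n : ℝ) ^ η) ≤ N n ∧ |c n| ≤ B * N n ∧ lam n ≤ B * N n ∧
    (N n : ℝ) ≤ lam n * Real.log (N n) ^ T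

/-- The distance of the integer `q` from the real number `y` is at most `log ^ V N`. -/
def Near (V N : ℕ) (y : ℝ) (q : ℤ) : Prop := |(q : ℝ) - y| ≤ Real.log N ^ V

/-- The range of the bounds for the primes: `log ^ L N ≤ X ≤ N ^ (1 / W)`. -/
def InRange (L W N X : ℕ) : Prop := Real.log N ^ L ≤ X ∧ (X : ℝ) ^ W ≤ N

/-- `μ` is a finite Borel measure with bounded support and its Fourier transform `ξ ↦ ∫ exp (i ξ t) dμ (t)` is
`O (|ξ| ^ (-δ))` for some `δ > 0`. -/
def FourierDecay (μ : Measure ℝ) : Prop :=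
  IsFiniteMeasure μ ∧ (∃ R : ℝ, μ (Set.Icc (-R) R)ᶜ = 0) ∧ ∃ C δ : ℝ, 0 < δ ∧ ∀ ξ : ℝ, ξ ≠ 0 →
    ‖∫ t : ℝ, Complex.exp (((ξ * t : ℝ) : ℂ) * Complex.I) ∂μ‖ ≤ C * |ξ| ^ (-δ)

/-- `p` is a prime of good reduction of all the curves `y² = x³ + f_i(n) x + g_i(n)`, and their traces of Frobenius
`a_p = p - N_p` are `r_i`. -/
def Traces {m : ℕ} (f g : Fin m → Polynomial ℤ) (r : Fin m → ℤ) (p : ℕ) (n : ℤ) : Prop :=
  ∀ i, GoodPrime ((f i).eval n) ((g i).eval n) p ∧ (p : ℤ) - pointCount ((f i).eval n) ((g i).eval n) p = r i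

open Classical in
/-- The number of the primes `p ≤ x` in `T` at which all the `y² = x³ + f_i(n) x + g_i(n)` have good reduction and the traces
`r_i`. -/
noncomputable def count {m : ℕ} (f g : Fin m → Polynomial ℤ) (T : Set ℕ) (r : Fin m → ℤ) (n : ℤ) (x : ℕ) : ℕ :=
  ((range (x + 1)).filter (fun p => p.Prime ∧ p ∈ T ∧ Traces f g r p n)).card

open Classical in
/-- The sum over the primes `p ≤ x` in `T` of the proportion of the residues `t` modulo `p` for which all the
`y² = x³ + f_i(t) x + g_i(t)` have good reduction at `p` and the traces `r_i`. -/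
noncomputable def model {m : ℕ} (f g : Fin m → Polynomial ℤ) (T : Set ℕ) (r : Fin m → ℤ) (x : ℕ) : ℝ :=
  ∑ p ∈ (range (x + 1)).filter (fun p => p.Prime ∧ p ∈ T), (((range p).filter (fun t : ℕ => Traces f g r p t)).card : ℝ) / p

section codes

/-- a code of an integer -/
def ec (z : ℤ) : ℕ := 2 * z.natAbs + if z < 0 then 1 else 0

lemma ec_inj {z z' : ℤ} (h : ec z = ec z') : z = z' := by
  unfold ec at h
  split_ifs at h <;> omega

lemma ec_le (z : ℤ) : ec z ≤ 2 * z.natAbs + 1 := by
  unfold ec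
  split_ifs <;> omega

/-- a code of a list -/
def encN : List ℕ → ℕ
  | [] => 0
  | a :: l => Nat.pair a (encN l)

lemma encN_inj : ∀ (l l' : List ℕ), l.length = l'.length → encN l = encN l' → l = l' := by
  intro l
  induction l with
  | nil =>
    intro l' h _
    cases l' with
    | nil => rfl
    | cons a l' => simp at h
  | cons a l ih =>
    intro l' h h'
    cases l' with
    | nil => simp at h
    | cons a' l' =>
      have h1 := Nat.pair_eq_pair.1 h'
      rw [h1.1, ih l' (by simpa using h) h1.2]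

lemma encN_le (R : ℕ) : ∀ l : List ℕ, (∀ a ∈ l, a ≤ R) → encN l + 1 ≤ (R + 1) ^ (2 ^ l.length) := by
  intro l
  induction l with
  | nil =>
    intro _
    simp [encN]
  | cons a l ih =>
    intro h
    have h1 := ih fun a' ha' => h a' (List.mem_cons_of_mem _ ha')
    have h2 := h a List.mem_cons_self
    have h3 := Nat.pair_lt_max_add_one_sq a (encN l)
    have h4 : max a (encN l) + 1 ≤ (R + 1) ^ (2 ^ l.length) := by
      have h5 : R + 1 ≤ (R + 1) ^ (2 ^ l.length) := Nat.le_self_pow (by positivity) _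
      rcases le_total a (encN l) with h6 | h6
      · rw [max_eq_right h6]
        exact h1
      · rw [max_eq_left h6]
        omega
    have h7 := Nat.pow_le_pow_left h4 2
    rw [← pow_mul, ← pow_succ] at h7
    show Nat.pair a (encN l) + 1 ≤ _
    rw [List.length_cons]
    omega

/-- the code of a vector of integers and an index -/
def code {m : ℕ} (j : ℕ) (r : Fin m → ℤ) : ℕ := encN (j :: List.ofFn (fun i => ec (r i)))

lemma code_inj {m : ℕ} {j j' : ℕ} {r r' : Fin m → ℤ} (h : code j r = code j' r') : j = j' ∧ r = r' := by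
  unfold code at h
  have h1 := encN_inj _ _ (by simp) h
  rw [List.cons.injEq] at h1
  refine ⟨h1.1, ?_⟩
  have h2 := List.ofFn_injective h1.2
  funext i
  exact ec_inj (congrFun h2 i)

lemma code_le {m : ℕ} {j R : ℕ} {r : Fin m → ℤ} (hj : j ≤ R) (hr : ∀ i, (r i).natAbs ≤ R) :
    code j r + 1 ≤ (2 * R + 2) ^ (2 ^ (m + 1)) := by
  unfold code
  have h := encN_le (2 * R + 1) (j :: List.ofFn (fun i => ec (r i))) (by
    intro a ha
    rw [List.mem_cons] at ha
    rcases ha with rfl | ha
    · omega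
    · rw [List.mem_ofFn] at ha
      obtain ⟨i, rfl⟩ := ha
      have h1 := ec_le (r i)
      have h2 := hr i
      omega)
  rw [List.length_cons, List.length_ofFn] at h
  exact h

end codes

lemma traces_per {m : ℕ} (f g : Fin m → Polynomial ℤ) (r : Fin m → ℤ) (p : ℕ) {n n' : ℤ} (h : (p : ℤ) ∣ n - n') :
    Traces f g r p n ↔ Traces f g r p n' := by
  have key : ∀ F : Polynomial ℤ, ((F.eval n : ℤ) : ZMod p) = ((F.eval n' : ℤ) : ZMod p) := by
    intro F
    rw [← sub_eq_zero, ← Int.cast_sub, ZMod.intCast_zmod_eq_zero_iff_dvd]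
    exact h.trans (Polynomial.sub_dvd_eval_sub n n' F)
  unfold Traces
  apply forall_congr'
  intro i
  have h1 : GoodPrime ((f i).eval n) ((g i).eval n) p ↔ GoodPrime ((f i).eval n') ((g i).eval n') p := by
    unfold GoodPrime
    rw [← ZMod.intCast_zmod_eq_zero_iff_dvd, ← ZMod.intCast_zmod_eq_zero_iff_dvd]
    push_cast
    rw [key (f i), key (g i)]
  have h2 : pointCount ((f i).eval n) ((g i).eval n) p = pointCount ((f i).eval n') ((g i).eval n') p := by
    unfold pointCount
    rw [key (f i), key (g i)]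
  rw [h1, h2]

lemma filter_pri (x : ℕ) (Q : ℕ → Prop) [DecidablePred (fun p => p.Prime ∧ Q p)] [DecidablePred Q] :
    (range (x + 1)).filter (fun p => p.Prime ∧ Q p) = (pri x).filter Q := by
  ext p
  simp only [mem_filter, mem_range, mem_pri]
  constructor
  · rintro ⟨h1, h2, h3⟩
    exact ⟨⟨by omega, h2⟩, h3⟩
  · rintro ⟨⟨h1, h2⟩, h3⟩
    exact ⟨by omega, h2, h3⟩

open Classical in
/-- the system of the indicator functions -/
theorem fs_surf {m : ℕ} (δ : ℝ) (hδ : 0 < δ) (f g : Fin m → Polynomial ℤ) (T : ℕ → Set ℕ)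
    (hT : ∀ p j j', p ∈ T j → p ∈ T j' → j = j') : ∃ s : Pool.Agent.N794.CG.FS, ∀ (x : ℕ) (n : ℤ),
    Pool.Agent.N794.CG.QF δ s x n → 1 ≤ x → (4 : ℝ) ^ (2 ^ (m + 1)) ≤ (x : ℝ) ^ (δ / 4) →
      ∀ j : ℕ, (j : ℝ) ≤ (x : ℝ) ^ (δ / 2 ^ (m + 3)) → ∀ r : Fin m → ℤ, (∀ i, (|r i| : ℝ) ≤ (x : ℝ) ^ (δ / 2 ^ (m + 3))) →
        |(count f g (T j) r n x : ℝ) - model f g (T j) r x| ≤ √(max 1 (model f g (T j) r (2 * x))) * (x : ℝ) ^ δ := by
  -- the indicator functions
  obtain ⟨G, hG⟩ : ∃ G : ℕ → ℕ → ℤ → ℝ, G = fun J p n =>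
    if ∃ (j : ℕ) (r : Fin m → ℤ), code j r = J ∧ p ∈ T j ∧ Traces f g r p n then 1 else 0 := ⟨_, rfl⟩
  have hGval : ∀ (j : ℕ) (r : Fin m → ℤ) (p : ℕ) (n : ℤ), G (code j r) p n = if p ∈ T j ∧ Traces f g r p n then 1 else 0 := by
    intro j r p n
    rw [hG]
    simp only
    congr 1
    rw [eq_iff_iff]
    constructor
    · rintro ⟨j', r', h, h1, h2⟩
      obtain ⟨rfl, rfl⟩ := code_inj h
      exact ⟨h1, h2⟩
    · rintro ⟨h1, h2⟩
      exact ⟨j, r, rfl, h1, h2⟩
  have hG1 : ∀ J, Pool.Agent.R459.Eq.Sysb (G J) := by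
    intro J
    constructor
    · intro p hp n n' h
      rw [hG]
      simp only
      congr 1
      rw [eq_iff_iff]
      apply exists_congr
      intro j
      apply exists_congr
      intro r
      rw [traces_per f g r p h]
    · intro p _ n
      rw [hG]
      simp only
      split_ifs <;> norm_num
  have hG2 : Pool.Agent.R459.Eq.Few G := by
    intro p hp n M
    have h2 : ∑ J ∈ range M, (G J p n) ^ 2 ≤ 1 := by
      have e : ∀ J, (G J p n) ^ 2 = if ∃ (j : ℕ) (r : Fin m → ℤ), code j r = J ∧ p ∈ T j ∧ Traces f g r p n then 1 else 0 := by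
        intro J
        rw [hG]
        simp only
        split_ifs <;> norm_num
      simp only [e]
      rw [sum_boole]
      have h3 : ((range M).filter (fun J => ∃ (j : ℕ) (r : Fin m → ℤ), code j r = J ∧ p ∈ T j ∧ Traces f g r p n)).card ≤ 1 := by
        rw [card_le_one]
        intro J hJ J' hJ'
        obtain ⟨j, r, h4, h5, h6⟩ := (mem_filter.1 hJ).2
        obtain ⟨j', r', h4', h5', h6'⟩ := (mem_filter.1 hJ').2
        have h7 := hT p j j' h5 h5'
        have h8 : r = r' := by
          funext i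
          rw [← (h6 i).2, ← (h6' i).2]
        rw [← h4, ← h4', h7, h8]
      exact_mod_cast h3
    have h3 : (0 : ℝ) ≤ Nat.log 2 p := Nat.cast_nonneg _
    linarith
  refine ⟨⟨G, hG1, hG2⟩, ?_⟩
  intro x n hn hx1 hxbig j hj r hr
  have hxr : (1 : ℝ) ≤ x := by exact_mod_cast hx1
  obtain ⟨θ, hθ⟩ : ∃ θ : ℝ, θ = δ / 2 ^ (m + 3) := ⟨_, rfl⟩
  rw [← hθ] at hj hr
  have hθ0 : 0 < θ := by rw [hθ]; positivity
  have hy1 : 1 ≤ (x : ℝ) ^ θ := Real.one_le_rpow hxr hθ0.le
  -- the size of the code
  have hcode : ((code j r : ℕ) : ℝ) ≤ (x : ℝ) ^ (δ / 2) := by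
    obtain ⟨R, hR⟩ : ∃ R : ℕ, R = ⌊(x : ℝ) ^ θ⌋₊ := ⟨_, rfl⟩
    have hRle : (R : ℝ) ≤ (x : ℝ) ^ θ := by
      rw [hR]
      exact Nat.floor_le (by positivity)
    have h2 : j ≤ R := by
      rw [hR]
      exact Nat.le_floor hj
    have h3 : ∀ i, (r i).natAbs ≤ R := by
      intro i
      rw [hR]
      apply Nat.le_floor
      have h4 := hr i
      rw [Nat.cast_natAbs]
      push_cast
      exact h4
    have h4 : ((code j r : ℕ) : ℝ) + 1 ≤ (2 * (R : ℝ) + 2) ^ (2 ^ (m + 1)) := by exact_mod_cast code_le h2 h3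
    have h5 : (2 * (R : ℝ) + 2) ^ (2 ^ (m + 1)) ≤ (4 * (x : ℝ) ^ θ) ^ (2 ^ (m + 1)) := by
      apply pow_le_pow_left₀ (by positivity)
      linarith
    have h6 : ((x : ℝ) ^ θ) ^ (2 ^ (m + 1)) = (x : ℝ) ^ (δ / 4) := by
      rw [← Real.rpow_natCast, ← Real.rpow_mul (by linarith), hθ]
      congr 1
      push_cast
      rw [pow_add (2 : ℝ) m 3, pow_add (2 : ℝ) m 1]
      field_simp
      norm_num
    rw [mul_pow, h6] at h5
    have h7 : (4 : ℝ) ^ (2 ^ (m + 1)) * (x : ℝ) ^ (δ / 4) ≤ (x : ℝ) ^ (δ / 4) * (x : ℝ) ^ (δ / 4) :=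
      mul_le_mul_of_nonneg_right hxbig (by positivity)
    have h8 : (x : ℝ) ^ (δ / 4) * (x : ℝ) ^ (δ / 4) = (x : ℝ) ^ (δ / 2) := by
      rw [← Real.rpow_add (by linarith)]
      congr 1
      ring
    linarith
  have h2 := hn.2 (code j r) hcode
  have hmean : ∀ p, mean p (G (code j r) p) = if p ∈ T j then (((range p).filter (fun t : ℕ => Traces f g r p t)).card : ℝ) / p else 0 := by
    intro p
    unfold mean
    simp only [hGval]
    by_cases h : p ∈ T j
    · rw [if_pos h]
      simp only [h, true_and]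
      rw [sum_boole]
    · rw [if_neg h]
      simp only [h, false_and, if_false]
      simp
  have hmodel : ∀ y : ℕ, ∑ p ∈ pri y, mean p (G (code j r) p) = model f g (T j) r y := by
    intro y
    unfold model
    rw [filter_pri y (fun p => p ∈ T j), sum_filter]
    exact sum_congr rfl fun p _ => hmean p
  have hVs : Vs (G (code j r)) (2 * x) ≤ model f g (T j) r (2 * x) := by
    rw [← hmodel]
    unfold Vs
    apply sum_le_sum
    intro p _
    unfold mean
    apply le_of_eq
    congr 1
    apply sum_congr rfl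
    intro t _
    show (G (code j r) p (t : ℤ)) ^ 2 = G (code j r) p (t : ℤ)
    rw [hGval]
    split_ifs <;> norm_num
  have hcount : ∑ p ∈ pri x, G (code j r) p n = (count f g (T j) r n x : ℝ) := by
    unfold count
    rw [filter_pri x (fun p => p ∈ T j ∧ Traces f g r p n)]
    simp only [hGval]
    rw [sum_boole]
  rw [sum_sub_distrib, hcount, hmodel] at h2
  refine h2.trans ?_
  apply mul_le_mul_of_nonneg_right _ (by positivity)
  exact Real.sqrt_le_sqrt (max_le_max le_rfl hVs)

/-- Let `0 < δ ≤ 1 / 2`, let `m` be given, and `θ = δ / 2 ^ (m + 3)`. For every measure `μ` with `FourierDecay μ` there is `W` such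
that for all `η > 0`, `V` there is `L` with the following property. Let sequences with `Scales η B T N lam c` be given, and for
every `n` any polynomials `f_i`, `g_i` (`i < m`) with integer coefficients and any pairwise disjoint sets of primes
`S_0, S_1, ...`, which may depend on `n`. For `μ`-almost every real number `x`, for all large `n`: for ALL the integers `q` at a
distance of at most `log ^ V (N n)` from `lam n * x + c n`, ALL `X` with `log ^ L (N n) ≤ X` and `X ^ W ≤ N n`, ALL `j ≤ X ^ θ` and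
ALL integers `|r_i| ≤ X ^ θ`: with `M` the sum over the primes `p ≤ X` in `S_j` of the proportion of the residues `t` modulo `p`
such that the curves `y² = x³ + f_i(t) x + g_i(t)` have good reduction and the traces `r_i` at `p`, and `M'` the same sum over
`p ≤ 2 X`, the number of the primes `p ≤ X` in `S_j` at which the curves `y² = x³ + f_i(q) x + g_i(q)` have good reduction and the
traces `r_i` differs from `M` by at most `(max 1 M') ^ (1 / 2) X ^ δ`. -/
theorem result (δ : ℝ) (hδ : 0 < δ) (hδ1 : δ ≤ 1 / 2) (m : ℕ) (μ : Measure ℝ) (hμ : FourierDecay μ) : ∃ W : ℕ, 1 ≤ W ∧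
    ∀ η : ℝ, 0 < η → ∀ V : ℕ, ∃ L : ℕ,
      ∀ (B T : ℕ) (N : ℕ → ℕ) (lam c : ℕ → ℝ), Scales η B T N lam c →
      ∀ (f g : ℕ → Fin m → Polynomial ℤ) (S : ℕ → ℕ → Set ℕ), (∀ n p j j', p ∈ S n j → p ∈ S n j' → j = j') →
      ∀ᵐ x ∂μ, ∀ᶠ n : ℕ in atTop, ∀ q : ℤ, Near V (N n) (lam n * x + c n) q → ∀ X : ℕ, InRange L W (N n) X →
        ∀ j : ℕ, (j : ℝ) ≤ (X : ℝ) ^ (δ / 2 ^ (m + 3)) → ∀ r : Fin m → ℤ, (∀ i, (|r i| : ℝ) ≤ (X : ℝ) ^ (δ / 2 ^ (m + 3))) →
          |(count (f n) (g n) (S n j) r q X : ℝ) - model (f n) (g n) (S n j) r X| ≤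
            √(max 1 (model (f n) (g n) (S n j) r (2 * X))) * (X : ℝ) ^ δ := by
  obtain ⟨W, hW, H⟩ := Pool.Agent.Run7.h582.FM.ae_fine δ hδ hδ1 μ hμ
  refine ⟨W, hW, fun η hη V => ?_⟩
  obtain ⟨L, hL⟩ := H η hη V 0
  refine ⟨L + 1, fun B T N lam c hS f g S hST => ?_⟩
  choose s hs using fun n => fs_surf δ hδ (f n) (g n) (S n) (hST n)
  obtain ⟨X₁, hX₁⟩ : ∃ X₁ : ℕ, ∀ x : ℕ, X₁ ≤ x → (4 : ℝ) ^ (2 ^ (m + 1)) ≤ (x : ℝ) ^ (δ / 4) := by
    have h1 := ((tendsto_rpow_atTop (show 0 < δ / 4 by positivity)).comp tendsto_natCast_atTop_atTop).eventually_ge_atTop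
      ((4 : ℝ) ^ (2 ^ (m + 1)))
    obtain ⟨X₁, hX₁⟩ := Filter.eventually_atTop.1 h1
    exact ⟨X₁, hX₁⟩
  filter_upwards [hL B T N lam c hS (fun _ => 1) (fun n _ => s n) (Eventually.of_forall fun n => by simp)] with x hx
  filter_upwards [hx, (Pool.Agent.Run7.h582.FM.Sc.log' hη hS).eventually_ge_atTop (X₁ + 1 : ℕ)] with n hn hl q hq X hX
  have hl1 : 1 ≤ Real.log (N n) := by
    refine le_trans ?_ hl
    push_cast
    linarith [Nat.cast_nonneg (α := ℝ) X₁]
  have h1 : Real.log (N n) ^ L ≤ X := (pow_le_pow_right₀ hl1 (by omega)).trans hX.1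
  have h2 : ((X₁ + 1 : ℕ) : ℝ) ≤ X := hl.trans ((le_self_pow₀ hl1 (by omega)).trans hX.1)
  have h3 : X₁ + 1 ≤ X := by exact_mod_cast h2
  exact hs n X q (hn q hq 0 X h1 hX.2) (by omega) (hX₁ X (by omega))

end Pool.Agent.Results.MP_d74fca_nt.FourierDecaySurfaces
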